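import Mathlib

namespace Pool.Agent.Results.MP_0634a4_nt.Full

open Finset

def T (n k : ℕ) : ℚ :=
  (∑ i ∈ Icc 1 n, (i : ℚ) ^ (3 * (4 * k - 3))) / (∑ i ∈ Icc 1 n, (i : ℚ) ^ 3)

theorem result : ¬ ∃ z : ℤ, T 10 5 = z := by
  rintro ⟨z, hz⟩
  have h : (T 10 5).den = 11 := by decide +kernel
  rw [hz] at h
  simp at h

end Pool.Agent.Results.MP_0634a4_nt.Full
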